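import Pool.Agent.Q273.AD.Stm

/-!
# Jobs FAPX and HYP of the project AD
-/

set_option autoImplicit false

namespace Q182.AD

open MeasureTheory NumberField NumberField.mixedEmbedding
open IsDedekindDomain Pool.Agent.H691R3 Pool.Agent.W232.VA Q273.AD
open IsDedekindDomain.HeightOneSpectrum

section fapx

variable {K : Type} [Field K] [NumberField K] (v : HeightOneSpectrum (𝓞 K))

theorem one_lt_N : (1 : NNReal) < (Ideal.absNorm v.asIdeal : NNReal) :=
  NumberField.HeightOneSpectrum.one_lt_absNorm_nnreal v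

theorem norm_le_norm {x y : v.adicCompletion K} (h : Valued.v x ≤ Valued.v y) : ‖x‖ ≤ ‖y‖ := by
  rw [NumberField.FinitePlace.norm_def, NumberField.FinitePlace.norm_def]
  exact_mod_cast (WithZeroMulInt.toNNReal_strictMono (one_lt_N v)).monotone h

theorem val_le_of_norm {x y : v.adicCompletion K} (h : ‖x‖ ≤ ‖y‖) :
    (Valued.v x : WithZero (Multiplicative ℤ)) ≤ Valued.v y := by
  rw [NumberField.FinitePlace.norm_def, NumberField.FinitePlace.norm_def] at h
  exact (WithZeroMulInt.toNNReal_strictMono (one_lt_N v)).le_iff_le.1 (by exact_mod_cast h)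

/-- the ultrametric inequality -/
theorem norm_add_le_max' (x y : v.adicCompletion K) : ‖x + y‖ ≤ max ‖x‖ ‖y‖ := by
  rcases le_total (Valued.v x : WithZero (Multiplicative ℤ)) (Valued.v y) with h | h
  · refine le_trans (norm_le_norm v ?_) (le_max_right _ _)
    exact (Valuation.map_add _ x y).trans (max_le h le_rfl)
  · refine le_trans (norm_le_norm v ?_) (le_max_left _ _)
    exact (Valuation.map_add _ x y).trans (max_le le_rfl h)

theorem fapx_aux (z : v.adicCompletionIntegers K) (ε : ℝ) (hε : 0 < ε) (hε1 : ε ≤ 1) :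
    ∃ y : K, v.valuation K y ≤ 1 ∧
      ‖(z : v.adicCompletion K) - FinitePlace.embedding v y‖ ≤ ε := by
  obtain ⟨y, hy⟩ := (denseRange_algebraMap (R := 𝓞 K) (K := K) (v := v)).exists_dist_lt
    (z : v.adicCompletion K) hε
  rw [dist_eq_norm] at hy
  have hy' : ‖(z : v.adicCompletion K) - FinitePlace.embedding v y‖ ≤ ε := hy.le
  refine ⟨y, ?_, hy'⟩
  have h1 : ‖FinitePlace.embedding v y‖ ≤ ‖(1 : v.adicCompletion K)‖ := by
    rw [norm_one]
    have h2 : FinitePlace.embedding v y = (z : v.adicCompletion K) +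
        -((z : v.adicCompletion K) - FinitePlace.embedding v y) := by ring
    rw [h2]
    refine (norm_add_le_max' v _ _).trans (max_le ?_ ?_)
    · have h3 : ‖(z : v.adicCompletion K)‖ ≤ ‖(1 : v.adicCompletion K)‖ := by
        refine norm_le_norm v ?_
        rw [map_one]
        exact z.2
      rwa [norm_one] at h3
    · rw [norm_neg]
      exact hy'.trans hε1
  have h2 := val_le_of_norm v h1
  rw [map_one, NumberField.FinitePlace.embedding_apply, valuedAdicCompletion_eq_valuation'] at h2
  exact h2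

end fapx

theorem fapx : S_FAPX := by
  intro K _ _ v z k
  have hN : (1 : ℝ) < Nv v := by
    have := two_le_Nv v
    linarith
  obtain ⟨y, hy, hzy⟩ := fapx_aux v z (((Nv v) ^ k)⁻¹) (by positivity)
    (inv_le_one_of_one_le₀ (one_le_pow₀ hN.le))
  have hγ : (WithZero.exp (-(k : ℤ)) : WithZero (Multiplicative ℤ)) ≠ 0 := WithZero.exp_ne_zero
  obtain ⟨a, ha⟩ := exists_valuation_sub_lt_of_integer v hy (Units.mk0 _ hγ)
  refine ⟨a, ?_⟩
  have h1 : ‖FinitePlace.embedding v (a : K) - FinitePlace.embedding v y‖ ≤ ((Nv v) ^ k)⁻¹ := by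
    rw [← map_sub, NumberField.FinitePlace.norm_embedding']
    have h2 := (WithZeroMulInt.toNNReal_strictMono (one_lt_N v)) ha
    have h3 : WithZeroMulInt.toNNReal (ne_zero_of_lt (one_lt_N v))
        ((Units.mk0 _ hγ : (WithZero (Multiplicative ℤ))ˣ) : WithZero (Multiplicative ℤ)) =
        ((Ideal.absNorm v.asIdeal : NNReal) ^ k)⁻¹ := by
      rw [Units.val_mk0, WithZeroMulInt.toNNReal_neg_apply _ hγ]
      rw [← zpow_natCast, ← zpow_neg]
      rfl
    rw [h3] at h2
    have h4 : (((Ideal.absNorm v.asIdeal : NNReal) ^ k)⁻¹ : NNReal) = ((Nv v) ^ k)⁻¹ := by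
      unfold Nv
      push_cast
      rfl
    rw [← h4]
    exact_mod_cast h2.le
  have h2 : (z : v.adicCompletion K) - FinitePlace.embedding v (a : K) =
      ((z : v.adicCompletion K) - FinitePlace.embedding v y) +
      -(FinitePlace.embedding v (a : K) - FinitePlace.embedding v y) := by ring
  rw [h2]
  refine (norm_add_le_max' v _ _).trans (max_le hzy ?_)
  rw [norm_neg]
  exact h1

theorem hypv : S_HYPV := by
  intro K _ _ n hn v z b hb
  have : Nonempty (Fin n) := ⟨⟨0, hn⟩⟩
  set c : ℝ := ‖FinitePlace.embedding v (b 0) +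
        ∑ j : Fin n, FinitePlace.embedding v (b j.succ) * (z j : v.adicCompletion K)‖ with hc
  have hc0 : 0 < c := norm_pos_iff.2 hb
  set B : ℝ := ∑ j : Fin n, ‖FinitePlace.embedding v (b j.succ)‖ + 1 with hB
  have hB0 : 0 < B := by
    have : 0 ≤ ∑ j : Fin n, ‖FinitePlace.embedding v (b j.succ)‖ :=
      Finset.sum_nonneg fun j _ => norm_nonneg _
    rw [hB]
    linarith
  refine ⟨Real.log (max 1 (B / c)), fun y hy => ?_⟩
  unfold pv
  set t : ℝ := ⨆ j, ‖(z j : v.adicCompletion K) - FinitePlace.embedding v (y j)‖ with ht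
  have htj : ∀ j, ‖(z j : v.adicCompletion K) - FinitePlace.embedding v (y j)‖ ≤ t := fun j =>
    Finite.le_ciSup_of_le
      (f := fun j => ‖(z j : v.adicCompletion K) - FinitePlace.embedding v (y j)‖) j le_rfl
  have h1 : FinitePlace.embedding v (b 0) +
        ∑ j : Fin n, FinitePlace.embedding v (b j.succ) * (z j : v.adicCompletion K) =
      ∑ j, FinitePlace.embedding v (b j.succ) *
        ((z j : v.adicCompletion K) - FinitePlace.embedding v (y j)) := by
    have h2 : FinitePlace.embedding v (b 0 + ∑ j, b j.succ * y j) = 0 := by rw [hy, map_zero]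
    rw [map_add, map_sum] at h2
    simp only [map_mul] at h2
    simp only [mul_sub]
    rw [Finset.sum_sub_distrib]
    linear_combination h2
  have ht0' : 0 ≤ t := (norm_nonneg _).trans (htj ⟨0, hn⟩)
  have h3 : c ≤ B * t := by
    rw [hc, h1]
    refine (norm_sum_le _ _).trans ?_
    have h4 : ∑ j, ‖FinitePlace.embedding v (b j.succ) *
        ((z j : v.adicCompletion K) - FinitePlace.embedding v (y j))‖ ≤
        ∑ j : Fin n, ‖FinitePlace.embedding v (b j.succ)‖ * t := by
      refine Finset.sum_le_sum fun j _ => ?_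
      rw [norm_mul]
      exact mul_le_mul_of_nonneg_left (htj j) (norm_nonneg _)
    rw [← Finset.sum_mul] at h4
    refine h4.trans (mul_le_mul_of_nonneg_right ?_ ht0')
    rw [hB]
    linarith
  have ht0 : 0 < t := by
    rcases ht0'.lt_or_eq with h | h
    · exact h
    · rw [← h, mul_zero] at h3
      exact absurd hc0 (not_lt.2 h3)
  have h4 : t⁻¹ ≤ B / c := by
    rw [← one_div, div_le_div_iff₀ ht0 hc0, one_mul]
    exact h3
  exact Real.log_le_log (lt_of_lt_of_le one_pos (le_max_left _ _)) (max_le_max_left _ h4)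

theorem hypw : S_HYPW := by
  intro K _ _ n hn ξ b w hb
  have : Nonempty (Fin n) := ⟨⟨0, hn⟩⟩
  set c : ℝ := normAtPlace w (Q273.MV.linX b ξ) with hc
  have hc0 : 0 < c := lt_of_le_of_ne (normAtPlace_nonneg _ _) hb.symm
  set B : ℝ := ∑ j : Fin n, w (b j.succ) + 1 with hB
  have hB0 : 0 < B := by
    have : 0 ≤ ∑ j : Fin n, w (b j.succ) := Finset.sum_nonneg fun j _ => apply_nonneg _ _
    rw [hB]
    linarith
  refine ⟨Real.log (max 1 (B / c)), fun y hy => ?_⟩
  unfold pw
  set t : ℝ := ⨆ j, normAtPlace w (ξ j - mixedEmbedding K (y j)) with ht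
  have htj : ∀ j, normAtPlace w (ξ j - mixedEmbedding K (y j)) ≤ t := fun j =>
    Finite.le_ciSup_of_le (f := fun j => normAtPlace w (ξ j - mixedEmbedding K (y j))) j le_rfl
  have h1 : Q273.MV.linX b ξ = ∑ j, mixedEmbedding K (b j.succ) *
      (ξ j - mixedEmbedding K (y j)) := by
    have h2 : mixedEmbedding K (b 0 + ∑ j, b j.succ * y j) = 0 := by rw [hy, map_zero]
    rw [map_add, map_sum] at h2
    simp only [map_mul] at h2
    unfold Q273.MV.linX
    simp only [mul_sub]
    rw [Finset.sum_sub_distrib]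
    linear_combination h2
  have h2 : c ≤ ∑ j, normAtPlace w (mixedEmbedding K (b j.succ) *
      (ξ j - mixedEmbedding K (y j))) := by
    rw [hc, h1]
    exact Finset.le_sum_of_subadditive (fun x => normAtPlace w x) (map_zero _).le
      (normAtPlace_add_le w) _ _
  have ht0' : 0 ≤ t := (normAtPlace_nonneg _ _).trans (htj ⟨0, hn⟩)
  have h3 : c ≤ B * t := by
    refine h2.trans ?_
    have h4 : ∑ j, normAtPlace w (mixedEmbedding K (b j.succ) * (ξ j - mixedEmbedding K (y j))) ≤
        ∑ j : Fin n, w (b j.succ) * t := by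
      refine Finset.sum_le_sum fun j _ => ?_
      rw [map_mul, normAtPlace_apply]
      exact mul_le_mul_of_nonneg_left (htj j) (apply_nonneg _ _)
    rw [← Finset.sum_mul] at h4
    refine h4.trans (mul_le_mul_of_nonneg_right ?_ ht0')
    rw [hB]
    linarith
  have ht0 : 0 < t := by
    rcases ht0'.lt_or_eq with h | h
    · exact h
    · rw [← h, mul_zero] at h3
      exact absurd hc0 (not_lt.2 h3)
  have h4 : t⁻¹ ≤ B / c := by
    rw [← one_div, div_le_div_iff₀ ht0 hc0, one_mul]
    exact h3
  exact Real.log_le_log (lt_of_lt_of_le one_pos (le_max_left _ _)) (max_le_max_left _ h4)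

end Q182.AD
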